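import Pool.Agent.Y771.DJ.Short
import Pool.Agent.TH822.AA.Main
import Pool.Agent.W69.DZ.All

/-! Every short interval, and almost all very short intervals. -/

set_option autoImplicit false
set_option maxHeartbeats 4000000

open Complex Filter Topology Set MeasureTheory

namespace Pool.Agent.Y771.DJ

open H370 H370.A2 H295SI H370.AS Pool.Agent.TH822.DZ Pool.Agent.TH822.AA

theorem every_j (j : ℕ) (hj : 1 ≤ j) {F : ℂ → ℂ} (hF : GoodL F) (h ε : ℝ) (hh0 : 0 < h)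
    (hh1 : h ≤ 1) (hε : 0 < ε) :
    ∃ T0 : ℝ, 1 ≤ T0 ∧ ∀ T : ℝ, T0 ≤ T → ∀ H : ℝ, T ^ h ≤ H → H ≤ T →
      (2 * j + 1 - cc h - ε) * (NN F T (T + H) : ℝ) + SJ j F T (T + H) ≤
        (j : ℝ) * (j + 1) * (Nd F T (T + H) : ℝ) :=
  main_j H255SI.winS H793SI.convS H218SI3.kSqS H228SI.constS
    H965SI.countShort (H613SI.pairShort H627SI.lamSmooth H228SI.qqJJ H965SI.countShort
      (H804JJ.jjShort H399SI.explShort Pool.Agent.H431R2.SI.outerShort)) j hj hF h ε hh0 hh1 hε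

theorem almost_j (j : ℕ) (hj : 1 ≤ j) {F : ℂ → ℂ} (hF : GoodL F)
    (hB : ∀ τ : ℝ, 0 < τ → τ ≤ 1 → BZr F τ) (η0 lam ε : ℝ) (hη0 : 0 < η0) (hη1 : η0 < 1)
    (hlam : 0 < lam) (hgap : 2 * lam ≤ 1 + η0) (hε : 0 < ε) :
    ∃ δ : ℝ, 0 < δ ∧ ∃ T0 : ℝ, 10 ≤ T0 ∧ ∀ T : ℝ, T0 ≤ T → ∀ H : ℝ,
    T ^ η0 ≤ H → H ≤ T / 8 →
    volume {t : ℝ | t ∈ Set.Icc T (2 * T) ∧
      ¬ ((2 * j + 1 - cc lam - ε) * (NN F t (t + H) : ℝ) + SJ j F t (t + H) ≤
          (j : ℝ) * (j + 1) * (Nd F t (t + H) : ℝ))} ≤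
      ENNReal.ofReal (T ^ (1 - δ)) := by
  have hj1 : (1 : ℝ) ≤ j := by exact_mod_cast hj
  have hlam1 : lam ≤ 1 := by linarith
  have hc := cc_cont lam hlam hlam1
  have h1 : ∀ᶠ x : ℝ in 𝓝[<] lam, (0 < x ∧ x < lam) ∧ cc x < cc lam + ε / 4 := by
    have e1 : ∀ᶠ x : ℝ in 𝓝[<] lam, 0 < x := nhdsWithin_le_nhds (lt_mem_nhds hlam)
    have e2 : ∀ᶠ x : ℝ in 𝓝[<] lam, x < lam := self_mem_nhdsWithin
    have e3 : ∀ᶠ x : ℝ in 𝓝[<] lam, cc x < cc lam + ε / 4 :=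
      nhdsWithin_le_nhds (hc.eventually (gt_mem_nhds (by linarith)))
    exact (e1.and e2).and e3
  obtain ⟨x, ⟨hx0, hx1⟩, hx2⟩ := h1.exists
  have hxle : x ≤ 1 := by linarith
  have hR := H793SI.convS _ (s_pos x hx0) (s_le x hxle)
  have hW := H255SI.winS _ (s_pos x hx0) (s_le x hxle)
  have hK := H218SI3.kSqS _ (s_pos x hx0) (s_le x hxle)
  have hc0 := cc_nonneg x hx0 hxle
  obtain ⟨a, ha, hld⟩ := hF.ld
  set c : ℝ := cc x with hcdef
  set η : ℝ := min (1 / 2) (ε / (4 * (c + ε + 1))) with hη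
  have hη00 : 0 < η := lt_min (by norm_num) (by positivity)
  have hηh : η ≤ 1 / 2 := min_le_left _ _
  have hηe : η * (4 * (c + ε + 1)) ≤ ε := by
    have : η ≤ ε / (4 * (c + ε + 1)) := min_le_right _ _
    rwa [le_div_iff₀ (by positivity)] at this
  set τ : ℝ := η0 / 4 with hτ
  have hτ0 : 0 < τ := by positivity
  obtain ⟨δ, hδ, T0, hT0, h⟩ := almost_up hR hF ha hld hτ0.le (hB τ hτ0 (by linarith)) η0 x η
    hη0 hη1 hx0 (by linarith) (by nlinarith) hη00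
  refine ⟨δ, hδ, T0, hT0, fun T hT H hH1 hH2 => (measure_mono ?_).trans (h T hT H hH1 hH2)⟩
  have hT10 : 10 ≤ T := hT0.trans hT
  have hTpos : 0 < T := by linarith
  rintro t ⟨ht1, ht2⟩
  refine ⟨ht1, fun hcon => ht2 ?_⟩
  obtain ⟨h3, h4⟩ := hcon
  have hHpos : 0 < H := lt_of_lt_of_le (Real.rpow_pos_of_pos hTpos _) hH1
  have hL : 0 < Real.log T := Real.log_pos (by linarith)
  have hU : 1 ≤ t := by linarith [ht1.1]
  have hpi := Real.pi_pos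
  set M : ℝ := H * Real.log T / (2 * Real.pi) with hM
  have hM0 : 0 < M := by positivity
  have hPS : PS (RS (Real.sqrt 2 * x)) F t (t + H) (x * Real.log T) =
      QQG (gS (Real.sqrt 2 * x)) F (x * Real.log T) t (t + H) := by
    rw [H228SI.qqJJ (gS (Real.sqrt 2 * x)) _ hW hR hK F hF t (t + H) hU (x * Real.log T)]
    rfl
  rw [ccR_eq x hx0 hxle, ← hcdef, hPS] at h4
  obtain ⟨hNNl, hNNu⟩ := abs_le.mp h3
  have hb2 := trace_j hF hU j hj hW (x * Real.log T) (U2 := t + H)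
  set N : ℝ := (NN F t (t + H) : ℝ) with hN
  have hN0 : (0 : ℝ) ≤ N := Nat.cast_nonneg _
  have hNM : M * (1 - η) ≤ N := by linarith
  have hkey : M * (c + η) ≤ (c + ε / 2) * N := by
    have h5 : c + η ≤ (c + ε / 2) * (1 - η) := by nlinarith
    calc M * (c + η) ≤ M * ((c + ε / 2) * (1 - η)) := by gcongr
      _ = (c + ε / 2) * (M * (1 - η)) := by ring
      _ ≤ _ := by gcongr
  have hcN : (c + ε / 2) * N ≤ (cc lam + ε) * N := by
    apply mul_le_mul_of_nonneg_right _ hN0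
    linarith
  linarith

end Pool.Agent.Y771.DJ
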