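import Pool.Agent.Y762.TraceD
import Pool.Agent.W69.DZ.Trace

/-!
The trace inequality for the number of distinct zeros, for a general window, with a parameter `j`.
-/

set_option autoImplicit false
set_option maxHeartbeats 4000000

open Complex Filter Topology Set MeasureTheory
open scoped BigOperators ComplexConjugate

namespace Pool.Agent.Y771.DJ

open H370 H295SI H143TG

/-- excess multiplicity beyond `j + 1` on the line, beyond `1` off the line -/
noncomputable def EXJ (j : ℕ) (F : ℂ → ℂ) (T1 T2 : ℝ) : ℕ :=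
  ∑ᶠ s ∈ zset F T1 T2, (if s.re = 1 / 2 then mult F s - (j + 1) else mult F s - 1)

/-- the extra terms -/
noncomputable def SJ (j : ℕ) (F : ℂ → ℂ) (T1 T2 : ℝ) : ℝ :=
  (EXJ j F T1 T2 : ℝ) + ((j : ℝ) ^ 2 + 1) / 2 * (W69DZ.NF F T1 T2 : ℝ)

section

variable {F : ℂ → ℂ} (hF : GoodL F) {U1 U2 : ℝ} (hU : 1 ≤ U1)

include hF hU in
lemma EXJ_eq (j : ℕ) : EXJ j F U1 U2 =
    ∑ s ∈ Zf F U1 U2, (if s.re = 1 / 2 then mult F s - (j + 1) else mult F s - 1) :=
  finsum_Zf hF hU _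

include hF hU in
lemma SJ_eq (j : ℕ) : SJ j F U1 U2 =
    ∑ s ∈ Zf F U1 U2, (((if s.re = 1 / 2 then mult F s - (j + 1) else mult F s - 1 : ℕ) : ℝ) +
      ((j : ℝ) ^ 2 + 1) / 2 * (if s.re = 1 / 2 then 0 else 1)) := by
  unfold SJ
  rw [EXJ_eq hF hU, W69DZ.NF_eq hF hU, Finset.sum_add_distrib, ← Finset.mul_sum]
  push_cast
  rfl

include hF hU in
theorem trace_j (j : ℕ) (hj : 1 ≤ j) {g : ℝ → ℝ} (hg : Win g) (Λ : ℝ) :
    (2 * j + 1 : ℝ) * (NN F U1 U2 : ℝ) - QQG g F Λ U1 U2 + SJ j F U1 U2 ≤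
      (j : ℝ) * (j + 1) * (Nd F U1 U2 : ℝ) := by
  classical
  obtain ⟨E, iE1, iE2, kv, hkv⟩ := gramG_exists hg Λ
  set W := Zf F U1 U2 with hW
  have hinj : Set.InjOn zz (W : Set ℂ) := fun s _ s' _ h => zz_inj h
  set Z : Finset ℂ := W.image zz with hZ
  set m : ℂ → ℕ := fun z => mult F (1 / 2 + I * z) with hm
  have hback : ∀ s : ℂ, (1 / 2 + I * zz s) = s := by
    intro s
    have := zz_spec s
    linear_combination -this
  have hmz : ∀ s : ℂ, m (zz s) = mult F s := by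
    intro s; simp only [hm]; rw [hback]
  have hWm : ∀ s ∈ W, s ∈ zset F U1 U2 := fun s hs => (mem_Zf hF hU).mp hs
  have hWpos : ∀ s ∈ W, 1 ≤ mult F s := by
    intro s hs
    have := hWm s hs
    exact Loc.mult_pos' hF (by linarith [this.2.2.1]) this.2.2.2.2
  have hsumZ : ∀ {M : Type} [AddCommMonoid M] (f : ℂ → M),
      ∑ z ∈ Z, f z = ∑ s ∈ W, f (zz s) := by
    intro M _ f
    rw [hZ, Finset.sum_image (fun s _ s' _ h => zz_inj h)]
  have hN : ∑ z ∈ Z, (m z : ℝ) = NN F U1 U2 := by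
    rw [NN_eq hF hU, hsumZ]
    simp only [hmz]
    push_cast; rfl
  have hZc : ∀ z ∈ Z, conj z ∈ Z := by
    intro z hz
    rw [hZ, Finset.mem_image] at hz
    obtain ⟨s, hs, rfl⟩ := hz
    rw [← zz_refl]
    exact Finset.mem_image_of_mem _ ((mem_Zf hF hU).mpr (zset_refl hF hU (hWm s hs)))
  have hmp : ∀ z ∈ Z, 1 ≤ m z := by
    intro z hz
    rw [hZ, Finset.mem_image] at hz
    obtain ⟨s, hs, rfl⟩ := hz
    rw [hmz]
    exact hWpos s hs
  have hmc : ∀ z ∈ Z, m (conj z) = m z := by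
    intro z hz
    rw [hZ, Finset.mem_image] at hz
    obtain ⟨s, hs, rfl⟩ := hz
    have := hWm s hs
    rw [← zz_refl, hmz, hmz, mult_refl hF this.1 this.2.1 (by linarith [this.2.2.1])]
  set k : ℝ := (j : ℝ) + 1 with hk
  have hj1 : (1 : ℝ) ≤ j := by exact_mod_cast hj
  have hk0 : 0 < k := by linarith
  set lam : ℝ := 2 / k with hlam
  have hlam0 : 0 < lam := by positivity
  have hlk : lam * k = 2 := by rw [hlam]; field_simp
  set a : ℂ → ℂ := fun z => (lam : ℂ) * (m z : ℂ) with ha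
  have hare : ∀ z, (a z).re = lam * (m z : ℝ) := by
    intro z
    simp only [ha]
    rw [Complex.re_ofReal_mul, Complex.natCast_re]
  set d : ℂ → ℝ := fun z => if z.im = 0 ∧ m z ≤ j + 1 then lam * (m z : ℝ) else 2 with hd
  have hT := Pool.Agent.Y762.trace_d (phiG g Λ) kv hkv (phiG_even hg Λ) (phiG_zero hg Λ) Z hZc a
    (fun z hz => by
      simp only [ha]
      rw [hmc z hz, map_mul, Complex.conj_ofReal, Complex.conj_natCast]) d
    (fun z _ => by
      simp only [hd]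
      split_ifs with h
      · have h1 : (m z : ℝ) ≤ k := by
          rw [hk]; exact_mod_cast h.2
        calc lam * (m z : ℝ) ≤ lam * k := mul_le_mul_of_nonneg_left h1 hlam0.le
          _ = 2 := hlk
      · exact le_refl _)
    (fun z _ hz => by
      refine ⟨?_, ?_⟩
      · by_contra h
        apply hz
        simp only [hd]
        rw [if_neg (fun h' => h h'.1)]
      · rw [hare]; positivity)
  have hQ : (∑ z ∈ Z, ∑ w ∈ Z, a z * a w * (phiG g Λ (z - w)) ^ 2).re =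
      lam ^ 2 * QQG g F Λ U1 U2 := by
    have e1 : ∑ z ∈ Z, ∑ w ∈ Z, a z * a w * (phiG g Λ (z - w)) ^ 2 =
        ((lam ^ 2 : ℝ) : ℂ) * ∑ z ∈ Z, ∑ w ∈ Z, (m z : ℂ) * (m w : ℂ) * (phiG g Λ (z - w)) ^ 2 := by
      rw [Finset.mul_sum]
      refine Finset.sum_congr rfl fun z _ => ?_
      rw [Finset.mul_sum]
      refine Finset.sum_congr rfl fun w _ => ?_
      simp only [ha]
      push_cast
      ring
    rw [e1, Complex.re_ofReal_mul, QQG_eq hF hU, hsumZ]
    simp only [hsumZ, hmz, ← hW]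
  rw [hQ] at hT
  have hcz : (Nd F U1 U2 : ℝ) = ∑ z ∈ Z, (1 : ℝ) := by
    rw [Nd_card hF hU, hsumZ, ← hW]; simp
  have hSJ : SJ j F U1 U2 = ∑ z ∈ Z, (((if z.im = 0 then m z - (j + 1) else m z - 1 : ℕ) : ℝ) +
      ((j : ℝ) ^ 2 + 1) / 2 * (if z.im = 0 then 0 else 1)) := by
    rw [SJ_eq hF hU, hsumZ]
    refine Finset.sum_congr rfl fun s _ => ?_
    rw [hmz, zz_im]
    by_cases hs : s.re = 1 / 2
    · rw [if_pos hs, if_pos hs, if_pos (by rw [hs]; ring), if_pos (by rw [hs]; ring)]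
    · rw [if_neg hs, if_neg hs, if_neg (fun h => hs (by linarith)),
        if_neg (fun h => hs (by linarith))]
  have hscale := mul_le_mul_of_nonneg_left hT (by positivity : 0 ≤ k ^ 2 / 4)
  have hl2 : k ^ 2 / 4 * lam ^ 2 = 1 := by
    have : (lam * k) ^ 2 = 4 := by rw [hlk]; norm_num
    nlinarith
  rw [← mul_assoc, hl2, one_mul] at hscale
  rw [hcz, hSJ, ← hN]
  have key : (2 * j + 1 : ℝ) * ∑ z ∈ Z, (m z : ℝ) +
      ∑ z ∈ Z, (((if z.im = 0 then m z - (j + 1) else m z - 1 : ℕ) : ℝ) +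
        ((j : ℝ) ^ 2 + 1) / 2 * (if z.im = 0 then 0 else 1)) ≤
      (j : ℝ) * (j + 1) * ∑ z ∈ Z, (1 : ℝ) + k ^ 2 / 4 *
        ∑ z ∈ Z, (if z.im = 0 then 2 * d z * (a z).re - d z ^ 2 else 4 * (a z).re - 2) := by
    rw [Finset.mul_sum, Finset.mul_sum, Finset.mul_sum, ← Finset.sum_add_distrib,
      ← Finset.sum_add_distrib]
    refine Finset.sum_le_sum fun z hz => ?_
    have h1' := hmp z hz
    have h1 : (1 : ℝ) ≤ m z := by exact_mod_cast h1'
    rw [hare]
    by_cases h0 : z.im = 0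
    · rw [if_pos h0, if_pos h0, if_pos h0]
      by_cases h2 : m z ≤ j + 1
      · have hdz : d z = lam * (m z : ℝ) := by simp only [hd]; rw [if_pos ⟨h0, h2⟩]
        rw [hdz]
        have h3 : ((m z - (j + 1) : ℕ) : ℝ) = 0 := by
          rw [Nat.sub_eq_zero_of_le h2]; norm_num
        rw [h3]
        have e : k ^ 2 / 4 * (2 * (lam * (m z : ℝ)) * (lam * (m z : ℝ)) -
            (lam * (m z : ℝ)) ^ 2) = (k ^ 2 / 4 * lam ^ 2) * (m z : ℝ) ^ 2 := by ring
        rw [e, hl2]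
        -- (m - j)(m - j - 1) ≥ 0
        have h4 : 0 ≤ ((m z : ℝ) - j) * ((m z : ℝ) - j - 1) := by
          rcases Nat.lt_or_ge (m z) (j + 1) with h5 | h5
          · have h6 : (m z : ℝ) ≤ j := by exact_mod_cast Nat.lt_succ_iff.mp h5
            exact mul_nonneg_of_nonpos_of_nonpos (by linarith) (by linarith)
          · have h6 : (j : ℝ) + 1 ≤ m z := by exact_mod_cast h5
            exact mul_nonneg (by linarith) (by linarith)
        nlinarith
      · have hdz : d z = 2 := by simp only [hd]; rw [if_neg (fun h => h2 h.2)]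
        rw [hdz]
        have h3 : ((m z - (j + 1) : ℕ) : ℝ) = (m z : ℝ) - (j + 1) := by
          rw [Nat.cast_sub (by omega)]; push_cast; ring
        rw [h3]
        have e : k ^ 2 / 4 * (2 * 2 * (lam * (m z : ℝ)) - 2 ^ 2) =
            (lam * k) * k * (m z : ℝ) - k ^ 2 := by ring
        rw [e, hlk, hk]
        nlinarith
    · rw [if_neg h0, if_neg h0, if_neg h0]
      have h3 : ((m z - 1 : ℕ) : ℝ) = (m z : ℝ) - 1 := by rw [Nat.cast_sub h1', Nat.cast_one]
      rw [h3]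
      have e : k ^ 2 / 4 * (4 * (lam * (m z : ℝ)) - 2) =
          (lam * k) * k * (m z : ℝ) - k ^ 2 / 2 := by ring
      rw [e, hlk, hk]
      nlinarith
  linarith

end

/-- enlarging the interval -/
theorem SJ_mono (j : ℕ) {F : ℂ → ℂ} (hF : GoodL F) {a b a' b' : ℝ} (h : 1 ≤ a') (ha : a' ≤ a)
    (hb : b ≤ b') : SJ j F a' b' ≤ SJ j F a b +
      (((j : ℝ) ^ 2 + 1) / 2 + 1) * ((NN F a' b' : ℝ) - NN F a b) := by
  classical
  have h' : 1 ≤ a := h.trans ha
  have hsub : Zf F a b ⊆ Zf F a' b' := by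
    intro s hs
    rw [mem_Zf hF h'] at hs
    rw [mem_Zf hF h]
    exact zset_mono F ha hb hs
  rw [SJ_eq hF h, SJ_eq hF h', NN_eq hF h, NN_eq hF h']
  push_cast
  rw [← Finset.sum_sdiff (f := fun s => (mult F s : ℝ)) hsub, ← Finset.sum_sdiff hsub,
    add_sub_cancel_right, Finset.mul_sum, add_comm]
  refine add_le_add le_rfl (Finset.sum_le_sum fun s hs => ?_)
  have hs' := (mem_Zf hF h).mp (Finset.mem_sdiff.mp hs).1
  have hpos : 1 ≤ mult F s := Loc.mult_pos' hF (by linarith [hs'.2.2.1]) hs'.2.2.2.2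
  have hp1 : (1 : ℝ) ≤ mult F s := by exact_mod_cast hpos
  have hj0 : (0 : ℝ) ≤ ((j : ℝ) ^ 2 + 1) / 2 := by positivity
  by_cases h0 : s.re = 1 / 2
  · rw [if_pos h0, if_pos h0]
    have h3 : ((mult F s - (j + 1) : ℕ) : ℝ) ≤ mult F s := by
      exact_mod_cast Nat.sub_le _ _
    have h4 : 0 ≤ ((j : ℝ) ^ 2 + 1) / 2 * (mult F s : ℝ) := by positivity
    linarith
  · rw [if_neg h0, if_neg h0]
    have h3 : ((mult F s - 1 : ℕ) : ℝ) ≤ mult F s := by
      exact_mod_cast Nat.sub_le _ _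
    have h4 : ((j : ℝ) ^ 2 + 1) / 2 * 1 ≤ ((j : ℝ) ^ 2 + 1) / 2 * (mult F s : ℝ) :=
      mul_le_mul_of_nonneg_left hp1 hj0
    linarith

end Pool.Agent.Y771.DJ
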